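import Pool.Agent.H961R2.Lev.Stubs

/-! Task C1 (helper398): Lemma Q (cyclic variation). -/

open Function

namespace H961Lev

namespace C1aux

/-- total sum -/
noncomputable def T (g : ℤ → ℤ) : ℤ := ∑ᶠ t : ℤ, g t

/-- sum over a residue class -/
noncomputable def P (N : ℕ) (g : ℤ → ℤ) (s : ℤ) : ℤ := ∑ᶠ k : ℤ, g (s + k * N)

/-- finite support -/
def FS (g : ℤ → ℤ) : Prop := (support g).Finite

theorem FS_of {g : ℤ → ℤ} (a b : ℤ) (h : ∀ t, g t ≠ 0 → a ≤ t ∧ t ≤ b) : FS g :=
  (Set.finite_Icc a b).subset fun t ht => h t ht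

theorem FS.comp {g : ℤ → ℤ} (hg : FS g) {e : ℤ → ℤ} (he : Function.Injective e) :
    FS (fun t => g (e t)) := by
  have := hg.preimage (he.injOn (s := e ⁻¹' support g))
  exact this

theorem FS.P {N : ℕ} (hN : 0 < N) {g : ℤ → ℤ} (hg : FS g) (s : ℤ) : FS (fun k : ℤ => g (s + k * N)) :=
  hg.comp (fun a b h => by
    have h1 : a * (N : ℤ) = b * N := by simpa using h
    exact mul_right_cancel₀ (by exact_mod_cast hN.ne') h1)

theorem FS.mul_right {g : ℤ → ℤ} (hg : FS g) (f : ℤ → ℤ) : FS (fun t => g t * f t) :=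
  hg.subset fun t ht => by
    rw [mem_support] at *
    exact left_ne_zero_of_mul ht

theorem FS.abs {g : ℤ → ℤ} (hg : FS g) : FS (fun t => |g t|) :=
  hg.subset fun t ht => by
    rw [mem_support] at *
    exact abs_ne_zero.1 ht

theorem FS_sub {f g : ℤ → ℤ} (hg : FS g) (h : ∀ t, g t = 0 → f t = 0) : FS f :=
  hg.subset fun t ht => by
    rw [mem_support] at *
    exact fun h' => ht (h t h')

theorem T_shift (g : ℤ → ℤ) (a : ℤ) : T (fun t => g (t + a)) = T g :=
  finsum_comp_equiv (Equiv.addRight a) (f := g)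

theorem P_shift (N : ℕ) (g : ℤ → ℤ) (s : ℤ) : P N (fun t => g (t + N)) s = P N g s := by
  unfold P
  rw [← finsum_comp_equiv (Equiv.addRight (1 : ℤ)) (f := fun k : ℤ => g (s + k * N))]
  apply finsum_congr
  intro k
  simp only [Equiv.coe_addRight]
  rw [show s + k * (N : ℤ) + N = s + (k + 1) * N by ring]

theorem P_period (N : ℕ) (g : ℤ → ℤ) (s : ℤ) : P N g (s + N) = P N g s := by
  rw [← P_shift N g s]
  unfold P
  apply finsum_congr
  intro k
  rw [show s + (N : ℤ) + k * N = s + k * N + N by ring]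

theorem P_shift1 (N : ℕ) (g : ℤ → ℤ) (s : ℤ) : P N (fun t => g (t + 1)) s = P N g (s + 1) := by
  unfold P
  apply finsum_congr
  intro k
  show g (s + k * (N : ℤ) + 1) = g (s + 1 + k * N)
  rw [show s + k * (N : ℤ) + 1 = s + 1 + k * N by ring]

theorem P_sub {N : ℕ} (hN : 0 < N) {f g : ℤ → ℤ} (hf : FS f) (hg : FS g) (s : ℤ) :
    P N (fun t => f t - g t) s = P N f s - P N g s :=
  finsum_sub_distrib (hf.P hN s) (hg.P hN s)

theorem fin_le {f g : ℤ → ℤ} (hf : FS f) (hg : FS g) (h : ∀ t, f t ≤ g t) :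
    ∑ᶠ t, f t ≤ ∑ᶠ t, g t := by
  have h1 : 0 ≤ ∑ᶠ t, (g t - f t) := finsum_nonneg fun t => sub_nonneg.2 (h t)
  rw [finsum_sub_distrib hg hf] at h1
  linarith

theorem P_mono {N : ℕ} (hN : 0 < N) {f g : ℤ → ℤ} (hf : FS f) (hg : FS g) (h : ∀ t, f t ≤ g t) (s : ℤ) :
    P N f s ≤ P N g s :=
  fin_le (hf.P hN s) (hg.P hN s) fun _ => h _

theorem abs_P_le {N : ℕ} (hN : 0 < N) {g : ℤ → ℤ} (hg : FS g) (s : ℤ) :
    |P N g s| ≤ P N (fun t => |g t|) s := by
  have h1 := hg.P hN s
  have h2 := hg.abs.P hN s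
  unfold P
  rw [abs_le]
  constructor
  · rw [← finsum_neg_distrib]
    apply fin_le (f := fun k : ℤ => -|g (s + k * N)|)
    · exact h2.subset fun t ht => by
        rw [mem_support] at *
        exact fun h => ht (by rw [h, neg_zero])
    · exact h1
    · intro k
      exact neg_abs_le _
  · exact fin_le h1 h2 fun k => le_abs_self _

theorem partition {N : ℕ} (hN : 0 < N) {g : ℤ → ℤ} (hg : FS g) :
    ∑ s ∈ Finset.range N, P N g s = T g := by
  have : NeZero N := ⟨hN.ne'⟩
  unfold T
  have h1 := finsum_comp_equiv ((Int.divModEquiv N).symm) (f := g)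
  rw [← h1]
  have h2 : (support fun i : ℤ × Fin N => g ((Int.divModEquiv N).symm i)).Finite :=
    hg.preimage ((Int.divModEquiv N).symm.injective.injOn)
  have h3 := finsum_comp_equiv (Equiv.prodComm (Fin N) ℤ)
    (f := fun i : ℤ × Fin N => g ((Int.divModEquiv N).symm i))
  rw [← h3]
  have h4 : (support fun i : Fin N × ℤ => g ((Int.divModEquiv N).symm (Equiv.prodComm (Fin N) ℤ i))).Finite :=
    h2.preimage ((Equiv.prodComm (Fin N) ℤ).injective.injOn)
  rw [finsum_curry _ h4, finsum_eq_sum_of_fintype, Finset.sum_range]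
  apply Finset.sum_congr rfl
  intro s _
  unfold P
  apply finsum_congr
  intro k
  simp only [Int.divModEquiv, Equiv.prodComm_apply, Prod.swap_prod_mk, Equiv.coe_fn_symm_mk]
  congr 1
  ring

theorem T_q {Q : ℤ → ℤ} {K : ℤ} (hK : 0 ≤ K) (h0 : ∀ t, t < -K → Q t = 0) (h1 : ∀ t, K ≤ t → Q t = 1) :
    T (fun t => Q t - Q (t - 1)) = 1 := by
  obtain ⟨n, hn⟩ : ∃ n : ℕ, K = n := ⟨K.toNat, (Int.toNat_of_nonneg hK).symm⟩
  unfold T
  have hs : (support fun t => Q t - Q (t - 1)) ⊆
      ↑((Finset.range (2 * n + 1)).image (fun i : ℕ => -K + (i : ℤ))) := by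
    intro t ht
    rw [mem_support] at ht
    have h2 : -K ≤ t := by
      by_contra hc
      apply ht
      rw [h0 t (by omega), h0 (t - 1) (by omega)]
      rfl
    have h3 : t ≤ K := by
      by_contra hc
      apply ht
      rw [h1 t (by omega), h1 (t - 1) (by omega)]
      rfl
    rw [Finset.mem_coe, Finset.mem_image]
    refine ⟨(t + K).toNat, ?_, ?_⟩
    · rw [Finset.mem_range]; omega
    · rw [Int.toNat_of_nonneg (by omega)]; ring
  rw [finsum_eq_sum_of_support_subset _ hs, Finset.sum_image (fun a _ b _ h => by simpa using h)]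
  have h4 := Finset.sum_range_sub (fun i : ℕ => Q (-K + i - 1)) (2 * n + 1)
  have h5 : ∀ i ∈ Finset.range (2 * n + 1), Q (-K + (i : ℤ)) - Q (-K + (i : ℤ) - 1) =
      Q (-K + ((i + 1 : ℕ) : ℤ) - 1) - Q (-K + (i : ℤ) - 1) := by
    intro i _
    congr 2
    push_cast
    ring
  rw [Finset.sum_congr rfl h5, h4, h1 _ (by push_cast; omega), h0 _ (by push_cast; omega)]
  rfl

theorem D_eq (N : ℕ) (Q : ℤ → ℤ) (t : ℤ) :
    Q t - Q (t - N) = ∑ k ∈ Finset.range N, (Q (t - k) - Q (t - k - 1)) := by
  have h4 := Finset.sum_range_sub' (fun i : ℕ => Q (t - i)) N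
  simp only [Nat.cast_zero, sub_zero] at h4
  rw [← h4]
  apply Finset.sum_congr rfl
  intro k _
  congr 2
  push_cast
  ring

theorem T_D {N : ℕ} {Q : ℤ → ℤ} (hq : FS (fun t => Q t - Q (t - 1))) (y : ℤ → ℤ) :
    T (fun t => (Q t - Q (t - N)) * y t) =
      T (fun t => (Q t - Q (t - 1)) * ∑ k ∈ Finset.range N, y (t + k)) := by
  unfold T
  have h1 : ∀ t : ℤ, (Q t - Q (t - N)) * y t =
      ∑ k ∈ Finset.range N, (Q (t - k) - Q (t - k - 1)) * y t := by
    intro t
    rw [D_eq, Finset.sum_mul]
  have h2 : ∀ t : ℤ, (Q t - Q (t - 1)) * ∑ k ∈ Finset.range N, y (t + k) =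
      ∑ k ∈ Finset.range N, (Q t - Q (t - 1)) * y (t + k) := fun t => Finset.mul_sum _ _ _
  rw [finsum_congr h1, finsum_congr h2]
  have h3 : ∀ k : ℕ, FS (fun t => (Q (t - k) - Q (t - k - 1)) * y t) := fun k =>
    FS.mul_right (FS.comp hq (e := fun t => t - (k : ℤ)) (fun a b h => by simpa using h)) y
  have h4 : ∀ k : ℕ, FS (fun t => (Q t - Q (t - 1)) * y (t + k)) := fun k => hq.mul_right _
  rw [finsum_sum_comm _ _ (fun k _ => h3 k), finsum_sum_comm _ _ (fun k _ => h4 k)]
  apply Finset.sum_congr rfl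
  intro k _
  have h5 := T_shift (fun t => (Q (t - k) - Q (t - k - 1)) * y t) (k : ℤ)
  unfold T at h5
  rw [← h5]
  apply finsum_congr
  intro t
  simp only [add_sub_cancel_right]

end C1aux

open C1aux

theorem T_C1 : S_C1 := by
  intro N m K K' x Q hm0 hmN hx hF hQ hQ0 hQ1 hK hKK
  have hN : 0 < N := by omega
  set F : ℤ → ℤ := fun t => ∑ k ∈ Finset.range N, x (t + k) with hFdef
  set q : ℤ → ℤ := fun t => Q t - Q (t - 1) with hqdef
  set D : ℤ → ℤ := fun t => Q t - Q (t - N) with hDdef
  have hFm : ∀ t, F t ≤ m := hF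
  have hqs : ∀ t, q t ≠ 0 → -K ≤ t ∧ t ≤ K := by
    intro t ht
    constructor
    · by_contra hc
      apply ht
      rw [hqdef]
      simp only
      rw [hQ0 t (by omega), hQ0 (t - 1) (by omega)]
      rfl
    · by_contra hc
      apply ht
      rw [hqdef]
      simp only
      rw [hQ1 t (by omega), hQ1 (t - 1) (by omega)]
      rfl
  have hDs : ∀ t, D t ≠ 0 → -K ≤ t ∧ t ≤ K + N := by
    intro t ht
    constructor
    · by_contra hc
      apply ht
      rw [hDdef]
      simp only
      rw [hQ0 t (by omega), hQ0 (t - N) (by omega)]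
      rfl
    · by_contra hc
      apply ht
      rw [hDdef]
      simp only
      rw [hQ1 t (by omega), hQ1 (t - N) (by omega)]
      rfl
  have FSq : FS q := FS_of _ _ hqs
  have FSD : FS D := FS_of _ _ hDs
  set τ : ℤ → ℤ := fun t => 2 * m - F t - F (t - 1) with hτdef
  have hτ0 : ∀ t, 0 ≤ τ t := by
    intro t
    have h1 := hFm t
    have h2 := hFm (t - 1)
    rw [hτdef]
    simp only
    linarith
  set g1 : ℤ → ℤ := fun t => |D t| * |x t - x (t - 1)| with hg1
  set g2 : ℤ → ℤ := fun t => |q t| * τ t with hg2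
  have FSg1 : FS g1 := FSD.abs.mul_right _
  have FSg2 : FS g2 := FSq.abs.mul_right _
  have hLHS : ∑ t ∈ Finset.Icc (-K') K', (|Q t - Q (t - N)| * |x t - x (t - 1)| +
    |Q t - Q (t - 1)| * (2 * m - ∑ k ∈ Finset.range N, x (t + k)
      - ∑ k ∈ Finset.range N, x (t - 1 + k))) = T g1 + T g2 := by
    rw [Finset.sum_add_distrib]
    congr 1
    · symm
      apply finsum_eq_sum_of_support_subset
      intro t ht
      rw [mem_support] at ht
      have h1 := hDs t (fun h => ht (by rw [hg1]; simp only; rw [h]; simp))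
      rw [Finset.mem_coe, Finset.mem_Icc]
      omega
    · symm
      apply finsum_eq_sum_of_support_subset
      intro t ht
      rw [mem_support] at ht
      have h1 := hqs t (fun h => ht (by rw [hg2]; simp only; rw [h]; simp))
      rw [Finset.mem_coe, Finset.mem_Icc]
      omega
  rw [hLHS]
  by_contra hcon
  push Not at hcon
  have hle1 : T g1 + T g2 ≤ 1 := by omega
  set R : ℤ → ℤ := fun s => P N (fun t => D t * x t) s with hR
  set R' : ℤ → ℤ := fun s => P N (fun t => D t * x (t - 1)) s with hR'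
  -- (a)
  have ha : ∀ s, |R s - R' s| ≤ P N g1 s := by
    intro s
    have h1 : R s - R' s = P N (fun t => D t * (x t - x (t - 1))) s := by
      rw [hR, hR']
      simp only
      rw [← P_sub hN (FSD.mul_right _) (FSD.mul_right _)]
      congr 1
      funext t
      ring
    rw [h1]
    refine (abs_P_le hN (FSD.mul_right _) s).trans (le_of_eq ?_)
    congr 1
    funext t
    rw [abs_mul]
  -- (b)
  have hb : ∀ s, |R' (s + 1) - R s| ≤ P N (fun t => g2 (t + 1)) s := by
    intro s
    have FSq1 : FS (fun t => q (t + 1)) := FSq.comp (e := fun t => t + 1) (fun a b h => by simpa using h)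
    have FSq1N : FS (fun t => q (t + 1 - N)) :=
      FSq.comp (e := fun t => t + 1 - (N : ℤ)) (fun a b h => by simpa using h)
    have FSD1 : FS (fun t => D (t + 1)) := FSD.comp (e := fun t => t + 1) (fun a b h => by simpa using h)
    have h1 : R' (s + 1) - R s = P N (fun t => q (t + 1) * (x t - x (t + N))) s := by
      have h2 : R' (s + 1) = P N (fun t => D (t + 1) * x t) s := by
        rw [hR']
        simp only
        rw [← P_shift1]
        congr 1
        funext t
        rw [add_sub_cancel_right]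
      have h3 : P N (fun t => D (t + 1) * x t) s - P N (fun t => D t * x t) s =
          P N (fun t => q (t + 1) * x t) s - P N (fun t => q (t + 1 - N) * x t) s := by
        rw [← P_sub hN (FSD1.mul_right _) (FSD.mul_right _),
          ← P_sub hN (FSq1.mul_right _) (FSq1N.mul_right _)]
        congr 1
        funext t
        rw [hDdef, hqdef]
        simp only
        rw [show t + 1 - (N : ℤ) - 1 = t - N by ring, show t + 1 - 1 = t by ring]
        ring
      have h4 : P N (fun t => q (t + 1 - N) * x t) s = P N (fun t => q (t + 1) * x (t + N)) s := by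
        rw [← P_shift N (fun t => q (t + 1 - N) * x t) s]
        congr 1
        funext t
        rw [show t + (N : ℤ) + 1 - N = t + 1 by ring]
      rw [h2]
      show _ - P N (fun t => D t * x t) s = _
      rw [h3, h4, ← P_sub hN (FSq1.mul_right _) (FSq1.mul_right _)]
      congr 1
      funext t
      ring
    rw [h1]
    refine (abs_P_le hN (FSq1.mul_right _) s).trans ?_
    apply P_mono hN
    · exact (FSq1.mul_right _).abs
    · exact FSg2.comp (e := fun t => t + 1) (fun a b h => by simpa using h)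
    · intro t
      rw [abs_mul]
      apply mul_le_mul_of_nonneg_left _ (abs_nonneg _)
      -- |x t - x (t+N)| = |F t - F (t+1)| ≤ τ (t+1)
      have h5 : F t - F (t + 1) = x t - x (t + N) := by
        rw [hFdef]
        simp only
        have h6 := Finset.sum_range_succ (fun k : ℕ => x (t + k)) N
        have h7 := Finset.sum_range_succ' (fun k : ℕ => x (t + k)) N
        rw [h6] at h7
        have h8 : ∑ k ∈ Finset.range N, x (t + 1 + k) = ∑ k ∈ Finset.range N, x (t + ((k + 1 : ℕ) : ℤ)) := by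
          apply Finset.sum_congr rfl
          intro k _
          congr 1
          push_cast
          ring
        rw [h8]
        simp only [Nat.cast_zero, add_zero] at h7
        linarith
      rw [← h5]
      have h9 := hFm t
      have h10 := hFm (t + 1)
      show _ ≤ 2 * m - F (t + 1) - F (t + 1 - 1)
      rw [add_sub_cancel_right, abs_le]
      constructor <;> linarith
  -- total variation
  have hTV : ∑ s ∈ Finset.range N, (|R s - R' s| + |R' ((s : ℤ) + 1) - R s|) ≤ 1 := by
    refine le_trans ?_ hle1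
    have h1 : ∑ s ∈ Finset.range N, (|R s - R' s| + |R' ((s : ℤ) + 1) - R s|) ≤
        ∑ s ∈ Finset.range N, (P N g1 s + P N (fun t => g2 (t + 1)) s) :=
      Finset.sum_le_sum fun s _ => add_le_add (ha s) (hb s)
    refine h1.trans (le_of_eq ?_)
    rw [Finset.sum_add_distrib, partition hN FSg1,
      partition hN (FSg2.comp (e := fun t => t + 1) (fun a b h => by simpa using h)), T_shift g2 1]
  have htel : ∑ s ∈ Finset.range N, ((R s - R' s) + (R' ((s : ℤ) + 1) - R s)) = 0 := by
    have h1 : ∀ s ∈ Finset.range N, ((R s - R' s) + (R' ((s : ℤ) + 1) - R s)) =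
        R' ((s + 1 : ℕ) : ℤ) - R' ((s : ℕ) : ℤ) := by
      intro s _
      push_cast
      ring
    rw [Finset.sum_congr rfl h1, Finset.sum_range_sub (fun s : ℕ => R' (s : ℤ)) N]
    have h2 : R' (N : ℤ) = R' ((0 : ℕ) : ℤ) := by
      have h3 := P_period N (fun t => D t * x (t - 1)) 0
      rw [zero_add] at h3
      simpa using h3
    rw [h2, sub_self]
  have hpar : ∀ a : ℤ, (2 : ℤ) ∣ |a| - a := by
    intro a
    rcases abs_cases a with ⟨h, _⟩ | ⟨h, _⟩ <;> rw [h] <;> omega
  have hev : (2 : ℤ) ∣ ∑ s ∈ Finset.range N, (|R s - R' s| + |R' ((s : ℤ) + 1) - R s|) := by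
    have h1 : ∑ s ∈ Finset.range N, (|R s - R' s| + |R' ((s : ℤ) + 1) - R s|) =
        ∑ s ∈ Finset.range N, (|R s - R' s| + |R' ((s : ℤ) + 1) - R s|) -
        ∑ s ∈ Finset.range N, ((R s - R' s) + (R' ((s : ℤ) + 1) - R s)) := by
      rw [htel, sub_zero]
    rw [h1, ← Finset.sum_sub_distrib]
    apply Finset.dvd_sum
    intro s _
    have h2 := hpar (R s - R' s)
    have h3 := hpar (R' ((s : ℤ) + 1) - R s)
    have h4 := dvd_add h2 h3
    rw [show |R s - R' s| + |R' ((s : ℤ) + 1) - R s| - ((R s - R' s) + (R' ((s : ℤ) + 1) - R s)) =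
      |R s - R' s| - (R s - R' s) + (|R' ((s : ℤ) + 1) - R s| - (R' ((s : ℤ) + 1) - R s)) by ring]
    exact h4
  have hnn : ∀ s ∈ Finset.range N, 0 ≤ (|R s - R' s| + |R' ((s : ℤ) + 1) - R s|) := fun s _ =>
    add_nonneg (abs_nonneg _) (abs_nonneg _)
  have hzero : ∑ s ∈ Finset.range N, (|R s - R' s| + |R' ((s : ℤ) + 1) - R s|) = 0 := by
    have h1 := Finset.sum_nonneg hnn
    omega
  have heach := (Finset.sum_eq_zero_iff_of_nonneg hnn).1 hzero
  have hRR : ∀ s : ℕ, s < N → R s = R' s ∧ R' ((s : ℤ) + 1) = R s := by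
    intro s hs
    have h1 := heach s (Finset.mem_range.2 hs)
    have h2 : |R s - R' s| = 0 := by
      have := abs_nonneg (R s - R' s)
      have := abs_nonneg (R' ((s : ℤ) + 1) - R s)
      linarith
    have h3 : |R' ((s : ℤ) + 1) - R s| = 0 := by
      have := abs_nonneg (R s - R' s)
      have := abs_nonneg (R' ((s : ℤ) + 1) - R s)
      linarith
    rw [abs_eq_zero, sub_eq_zero] at h2 h3
    exact ⟨h2, h3⟩
  have hconst : ∀ s : ℕ, s ≤ N → R' s = R' 0 := by
    intro s
    induction s with
    | zero => intro _; simp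
    | succ s ih =>
      intro hs
      have h1 := hRR s (by omega)
      have h2 := ih (by omega)
      push_cast
      rw [h1.2, h1.1, h2]
  set c := R' 0 with hc
  have hsumR' : ∑ s ∈ Finset.range N, R' s = N * c := by
    rw [Finset.sum_congr rfl (fun s hs => hconst s (Finset.mem_range.1 hs).le)]
    simp
  have hsumR : ∑ s ∈ Finset.range N, R s = N * c := by
    rw [Finset.sum_congr rfl (fun s hs => (hRR s (Finset.mem_range.1 hs)).1)]
    exact hsumR'
  have e1 : T (fun t => q t * F t) = N * c := by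
    rw [← hsumR]
    show _ = ∑ s ∈ Finset.range N, P N (fun t => D t * x t) s
    rw [partition hN (FSD.mul_right _)]
    exact (T_D FSq x).symm
  have e2 : T (fun t => q t * F (t - 1)) = N * c := by
    rw [← hsumR']
    show _ = ∑ s ∈ Finset.range N, P N (fun t => D t * x (t - 1)) s
    rw [partition hN (FSD.mul_right _)]
    have h1 := (T_D (N := N) FSq (fun t => x (t - 1))).symm
    rw [← h1]
    unfold T
    apply finsum_congr
    intro t
    show (Q t - Q (t - 1)) * _ = (Q t - Q (t - 1)) * _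
    congr 1
    rw [hFdef]
    apply Finset.sum_congr rfl
    intro k _
    congr 1
    ring
  have e3 : T q = 1 := T_q hK hQ0 hQ1
  have e4 : T (fun t => q t * τ t) = 2 * (m - N * c) := by
    have h1 : T (fun t => q t * τ t) = 2 * m * T q - T (fun t => q t * F t) - T (fun t => q t * F (t - 1)) := by
      unfold T
      rw [mul_finsum, ← finsum_sub_distrib, ← finsum_sub_distrib]
      · apply finsum_congr
        intro t
        rw [hτdef]
        ring
      · exact FS_sub FSq (fun t ht => by rw [ht]; ring)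
      · exact FSq.mul_right _
      · exact FS_sub FSq (fun t ht => by rw [ht]; ring)
      · exact FSq.mul_right _
    rw [h1, e1, e2, e3]
    ring
  have e5 : |T (fun t => q t * τ t)| ≤ T g2 := by
    have h1 := abs_P_le (N := 1) one_pos (FSq.mul_right τ) 0
    have h2 : ∀ g : ℤ → ℤ, P 1 g 0 = T g := by
      intro g
      unfold P T
      apply finsum_congr
      intro k
      simp
    rw [h2, h2] at h1
    refine h1.trans (le_of_eq ?_)
    congr 1
    funext t
    rw [abs_mul, abs_of_nonneg (hτ0 t)]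
  have e6 : 0 ≤ T g1 := finsum_nonneg fun t => mul_nonneg (abs_nonneg _) (abs_nonneg _)
  rw [e4] at e5
  have e7 : |2 * (m - N * c)| ≤ 1 := by linarith
  have e8 : m - N * c = 0 := by
    rw [abs_le] at e7
    omega
  have e9 : (N : ℤ) ∣ m := ⟨c, by linarith⟩
  have e10 := Int.le_of_dvd hm0 e9
  omega

end H961Lev
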